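import Pool.Agent.Y403.VW.Main

/-!
The set of the construction is closed.
-/

set_option autoImplicit false

namespace Pool.Agent.Y403.VW

open Pool.Agent.H654R2 Set

/-- A function of a real which depends on finitely many bits only is continuous. -/
theorem continuous_of_bits {α : Type} [TopologicalSpace α] (f : (ℕ → Bool) → α) (n : ℕ)
    (h : ∀ x x' : ℕ → Bool, (∀ i, i < n → x i = x' i) → f x = f x') : Continuous f := by
  have h1 : f = (fun z : Fin n → Bool => f (fun i => if hi : i < n then z ⟨i, hi⟩ else false)) ∘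
      (fun x : ℕ → Bool => fun i : Fin n => x i) := by
    funext x
    refine h _ _ (fun i hi => ?_)
    simp [hi]
  rw [h1]
  exact continuous_of_discreteTopology.comp (continuous_pi fun i => continuous_apply _)

theorem isClosed_of_bits (S : Set (ℕ → Bool)) (n : ℕ)
    (h : ∀ x x' : ℕ → Bool, (∀ i, i < n → x i = x' i) → (x ∈ S ↔ x' ∈ S)) : IsClosed S := by
  classical
  have h1 : Continuous (fun x : ℕ → Bool => decide (x ∈ S)) :=
    continuous_of_bits _ n fun x x' hx => by simp only [h x x' hx]
  have h2 : S = (fun x : ℕ → Bool => decide (x ∈ S)) ⁻¹' {true} := by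
    ext x
    simp
  rw [h2]
  exact (isClosed_discrete _).preimage h1

theorem continuous_Xi : Continuous Xi :=
  continuous_pi fun n => continuous_of_bits _ n fun _ _ h => Xi_congr n h

theorem isClosed_AY (y : List Bool → ℕ → Bool) : IsClosed (AY y) := by
  have h1 : AY y = ⋂ k : ℕ, {x : ℕ → Bool | ∃ P : ℕ → ℕ, P 0 = k ∧
    ∀ j, ∃ i, P (j+1) = i + 1 ∧ k ≤ i ∧ att (y (rs x k) i) i ∧ par i = P j} := by
    ext x
    simp only [AY, Set.mem_iInter]
    exact Iff.rfl
  rw [h1]
  refine isClosed_iInter fun k => ?_
  exact isClosed_of_bits _ k fun x x' h => by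
    have h2 : rs x k = rs x' k := rs_congr k h
    simp only [Set.mem_setOf_eq, h2]

theorem isClosed_image (y : List Bool → ℕ → Bool) : IsClosed (Xi '' AY y) :=
  ((isClosed_AY y).isCompact.image continuous_Xi).isClosed

end Pool.Agent.Y403.VW
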