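import Pool.Agent.H654R2.VWTuple
import Pool.Agent.H654R2.VWCons

/-!
Reals avoided by joins of finitely many reals from the set (after `H654R2/VWJoin`, which is the
case of four reals).
-/

namespace Pool.Agent.Y403.VW

open Pool.Agent.H654R2 Ordinal

/-- The Turing join of `k` reals: bit `k * m + i` of the join is bit `m` of the `i`-th real. -/
def joinFin (k : ℕ) (u : Fin k → ℕ → Bool) : ℕ → Bool := fun n =>
  if h : n % k < k then u ⟨n % k, h⟩ (n / k) else false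

/-- a finite sequence of indices -/
abbrev Sel (ι : Type) : Type := Σ k : ℕ, (Fin k → ι)

section

variable {δ : Ordinal.{0}} {ι : Type} {st : ι}

/-- join of the reals coded by a tuple -/
def JT (π : Sel ι) (X : ι → ℕ → Bool) : ℕ → Bool :=
  joinFin π.1 (fun i => Xi (X (π.2 i)))

theorem JT_congr {π : Sel ι} {X X' : ι → ℕ → Bool} (n : ℕ)
    (h : ∀ j i, i < n → X j i = X' j i) : JT π X n = JT π X' n := by
  have h1 : ∀ j, Xi (X j) (n / π.1) = Xi (X' j) (n / π.1) := fun j =>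
    Xi_congr _ (fun i hi => h j i (lt_of_lt_of_le hi (Nat.div_le_self n π.1)))
  unfold JT joinFin
  split
  · exact h1 _
  · rfl

/-- the part of a tree decided by a tuple -/
def PrT (e : OCode) (π : Sel ι) (k : ℕ) (p : TC δ ι st) (b a : List ℕ) : Prop :=
  (∃ l, b = a ++ [l]) ∧ ∀ X : ι → ℕ → Bool, (∀ j i, i < p.m → X j i = p.b j i) →
    Ev e (JT π X) (Encodable.encode (k, a)) ∧ Ev e (JT π X) (Encodable.encode (k, b))

theorem PrT_mono (e : OCode) (π : Sel ι) (k : ℕ) (p q : TC δ ι st) (b a : List ℕ)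
    (hq : TC.le q p) (h : PrT e π k p b a) : PrT e π k q b a :=
  ⟨h.1, fun X hX => h.2 X (fun j i hi =>
    (hX j i (lt_of_lt_of_le hi hq.m)).trans (hq.b j i hi))⟩

/-- the tuple of reals at level `m` -/
noncomputable def tupR (g : GO δ) (X : ι → ℕ → Bool) (hX : ∀ j k, g.G.κ (rs (X j) k) k = ⊤)
    (hst : X st = g.x) (m : ℕ) : TC δ ι st where
  m := m
  b := X
  t := fun j i => tg g (X j) i
  lam := g.lam
  tb := fun j i => tg_TB g (X j) i
  pr := fun j i _ ha => tg_prec g (hX j) i ha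
  dec := by
    intro i _ ha ht
    rw [hst] at ha ht
    refine (g.sh (i+1)).dec i (Nat.lt_succ_self i) ?_ ?_
    · rw [bitAt_rs _ (Nat.lt_succ_self i)]; exact ha
    · rw [tg_eq g (star_top g) le_rfl]; exact ht

theorem tupR_le (g : GO δ) (X : ι → ℕ → Bool) (hX : ∀ j k, g.G.κ (rs (X j) k) k = ⊤)
    (hst : X st = g.x) (m n : ℕ) (h : m ≤ n) :
    TC.le (tupR g X hX hst n) (tupR g X hX hst m) :=
  ⟨h, fun _ _ _ => rfl, fun _ _ _ => rfl, fun _ _ => rfl⟩

theorem exists_sep [Finite ι] (X : ι → ℕ → Bool) (hinj : Function.Injective X) :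
    ∃ L, ∀ m, L ≤ m → Function.Injective (fun j => rs (X j) m) := by
  classical
  have h1 : ∀ p : ι × ι, ∃ i, p.1 ≠ p.2 → X p.1 i ≠ X p.2 i := by
    rintro ⟨j, j'⟩
    by_cases h : j = j'
    · exact ⟨0, fun h' => absurd h h'⟩
    · have h2 : X j ≠ X j' := fun h' => h (hinj h')
      obtain ⟨i, hi⟩ := Function.ne_iff.1 h2
      exact ⟨i, fun _ => hi⟩
  choose f hf using h1
  have hbd : ∃ L, ∀ p : ι × ι, f p < L := by
    rcases isEmpty_or_nonempty (ι × ι) with hI | hI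
    · exact ⟨0, fun p => (hI.false p).elim⟩
    · obtain ⟨p0, hp0⟩ := Finite.exists_max f
      exact ⟨f p0 + 1, fun p => Nat.lt_succ_of_le (hp0 p)⟩
  obtain ⟨L, hL⟩ := hbd
  refine ⟨L, fun m hm j j' h => ?_⟩
  by_contra hne
  have h2 := hf (j, j') hne
  have h3 : f (j, j') < m := lt_of_lt_of_le (hL _) hm
  apply h2
  show X j (f (j, j')) = X j' (f (j, j'))
  rw [← bitAt_rs (X j) h3, ← bitAt_rs (X j') h3]
  exact congrArg (fun s => bitAt s (f (j, j'))) h

theorem tup_meets [Finite ι] (g : GO δ) (X : ι → ℕ → Bool)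
    (hX : ∀ j k, g.G.κ (rs (X j) k) k = ⊤) (hst : X st = g.x) (hinj : Function.Injective X)
    {D : Set (TC δ ι st)} (hD : TC.DO D) (h6 : ∀ L, ∃ m, g.at m ∈ D6 D L) :
    ∃ m, tupR g X hX hst m ∈ D := by
  obtain ⟨L, hL⟩ := exists_sep X hinj
  obtain ⟨m, hm1, hm2⟩ := h6 L
  have hm1' : L ≤ m := hm1
  have hst' : rs (X st) m = (g.at m).s := by rw [hst]; rfl
  have hlen : ∀ j, (rs (X j) m).length = (g.at m).m := fun j => rs_length _ _
  have h1 := hm2 (fun j => rs (X j) m) (hL m hm1') hst' hlen (fun j => hX j m)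
  refine ⟨m, hD.opn _ _ ?_ h1⟩
  refine ⟨le_rfl, ?_, ?_, fun _ _ => rfl⟩
  · intro j i hi
    exact (bitAt_rs (X j) hi).symm
  · intro j i hi
    have hi' : i ≤ (g.at m).m := hi
    show tg g (X j) i = if i ≤ (g.at m).m then g.G.τ (rs (X j) m) i else ⊤
    simp only [hi', if_true]
    exact (tg_eq g (hX j) hi).symm

theorem path_iff (e : OCode) (π : Sel ι) (k : ℕ) (g : GO δ) (X : ι → ℕ → Bool)
    (hX : ∀ j k, g.G.κ (rs (X j) k) k = ⊤) (hst : X st = g.x) (R : ℕ → Bool)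
    (hR : ∀ n, R n = true ↔ Ev e (JT π X) n) :
    (∃ f : ℕ → ℕ, ∀ i, R (Encodable.encode (k, seg f i)) = true) ↔
      ∃ b : ℕ → List ℕ, b 0 = [] ∧
        ∀ n, ∃ m, PrT e π k (tupR g X hX hst m) (b (n+1)) (b n) := by
  have hseg : ∀ (f : ℕ → ℕ) i, seg f (i+1) = seg f i ++ [f i] := by
    intro f i
    simp [seg, List.range_succ]
  have huse : ∀ n, Ev e (JT π X) n → ∃ m, ∀ X' : ι → ℕ → Bool,
      (∀ j i, i < m → X' j i = X j i) → Ev e (JT π X') n := by
    intro n hn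
    obtain ⟨M, hM⟩ := Ev_use hn
    exact ⟨M, fun X' hX' => hM _ (fun i hi => JT_congr i
      (fun j i' hi' => hX' j i' (hi'.trans hi)))⟩
  constructor
  · rintro ⟨f, hf⟩
    refine ⟨fun i => seg f i, rfl, fun n => ?_⟩
    obtain ⟨m1, hm1⟩ := huse _ ((hR _).1 (hf n))
    obtain ⟨m2, hm2⟩ := huse _ ((hR _).1 (hf (n+1)))
    refine ⟨max m1 m2, ⟨f n, hseg f n⟩, fun X' hX' => ⟨?_, ?_⟩⟩
    · exact hm1 X' (fun j i hi => hX' j i (lt_of_lt_of_le hi (le_max_left _ _)))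
    · exact hm2 X' (fun j i hi => hX' j i (lt_of_lt_of_le hi (le_max_right _ _)))
  · rintro ⟨b, hb0, hb⟩
    choose m hm1 hm2 using hb
    choose f hf using hm1
    have hbs : ∀ i, seg f i = b i := by
      intro i
      induction i with
      | zero => rw [hb0]; rfl
      | succ i ih => rw [hseg, ih, ← hf]
    refine ⟨f, fun i => ?_⟩
    rw [hR, hbs]
    exact (hm2 i X (fun _ _ _ => rfl)).1

end

/-- index for the families of dense sets -/
abbrev Idx : Type := Σ n : ℕ, Fin n × OCode × Sel (Fin n) × ℕ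

/-- the family of requirements deciding the trees -/
structure Decides {δ : Ordinal.{0}} (g : GO δ) (η : Idx → Ordinal.{0}) : Prop where
  e1 : ∀ (n : ℕ) (st : Fin n) (e : OCode) (π : Sel (Fin n)) (k : ℕ) (a : List ℕ) (L : ℕ),
    ∃ m, g.at m ∈ D6 (E1 (TC.le (δ := δ) (st := st)) (PrT e π k) (η ⟨n, st, e, π, k⟩) a) L
  e2 : ∀ (n : ℕ) (st : Fin n) (e : OCode) (π : Sel (Fin n)) (k : ℕ) (a : List ℕ) (L : ℕ),
    ∃ m, g.at m ∈ D6 (E2 (TC.le (δ := δ) (st := st)) (PrT e π k) a) L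
  e3 : ∀ (n : ℕ) (st : Fin n) (e : OCode) (π : Sel (Fin n)) (k : ℕ) (a : List ℕ) (L : ℕ) (β),
    β < η ⟨n, st, e, π, k⟩ →
    ∃ m, g.at m ∈ D6 (E3 (TC.le (δ := δ) (st := st)) (PrT e π k) β a) L

theorem no_join {δ : Ordinal.{0}} (g : GO δ) (η : Idx → Ordinal.{0})
    (hη1 : ∀ t, η t < ω₁)
    (hη2 : ∀ (n : ℕ) (st : Fin n) (e : OCode) (π : Sel (Fin n)) (k : ℕ) (p : TC δ (Fin n) st)
      (a : List ℕ), ¬ High TC.le (PrT e π k) p a →
        ∃ β, β < η ⟨n, st, e, π, k⟩ ∧ ¬ HH TC.le (PrT e π k) β p a)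
    (hg : Decides g η) (h4 : ∀ si, ∃ m, g.at m ∈ D4 δ si) (γ : ℕ → Bool)
    (hγ1 : ∀ (n : ℕ) (st : Fin n) (e1 e2 : OCode) (π : Sel (Fin n)),
      ∀ p : TC δ (Fin n) st, ∃ q, TC.le q p ∧
        q ∈ Eγ TC.le (fun k => PrT e1 π k) (fun k => PrT e2 π k) [] γ)
    (hγ2 : ∀ (n : ℕ) (st : Fin n) (e1 e2 : OCode) (π : Sel (Fin n)) (L : ℕ),
      ∃ m, g.at m ∈ D6 (Eγ (TC.le (δ := δ) (st := st)) (fun k => PrT e1 π k)
        (fun k => PrT e2 π k) [] γ) L)
    (K : ℕ) (u : Fin K → ℕ → Bool) (hu : ∀ j, u j ∈ Xi '' AY g.G.y) :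
    ¬ HypIn γ (joinFin K u) := by
  classical
  rintro ⟨⟨R1, hR1, h1⟩, ⟨R2, hR2, h2⟩⟩
  choose v hv1 hv2 using hu
  -- enumerate the set of reals involved
  let F : Finset (ℕ → Bool) := insert g.x (Finset.univ.image v)
  let eF : F ≃ Fin F.card := F.equivFin
  let X : Fin F.card → ℕ → Bool := fun j => (eF.symm j).1
  have hinj : Function.Injective X := fun j j' h => eF.symm.injective (Subtype.ext h)
  have hgx : g.x ∈ F := Finset.mem_insert_self _ _
  have hvF : ∀ j, v j ∈ F := fun j =>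
    Finset.mem_insert_of_mem (Finset.mem_image_of_mem v (Finset.mem_univ j))
  let st : Fin F.card := eF ⟨g.x, hgx⟩
  let π : Sel (Fin F.card) := ⟨K, fun j => eF ⟨v j, hvF j⟩⟩
  have hst : X st = g.x := by
    show (eF.symm (eF ⟨g.x, hgx⟩)).1 = g.x
    rw [Equiv.symm_apply_apply]
  have hπ : ∀ j, X (π.2 j) = v j := by
    intro j
    show (eF.symm (eF ⟨v j, hvF j⟩)).1 = v j
    rw [Equiv.symm_apply_apply]
  have hX : ∀ j k, g.G.κ (rs (X j) k) k = ⊤ := by
    intro j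
    have hj : X j ∈ F := (eF.symm j).2
    rcases Finset.mem_insert.1 hj with h | h
    · rw [h]; exact star_top g
    · obtain ⟨i, -, hi⟩ := Finset.mem_image.1 h
      rw [← hi]
      exact (mem_AY_iff g h4 _).1 (hv1 i)
  have hJ : joinFin K u = JT π X := by
    show joinFin K u = joinFin K (fun i => Xi (X (π.2 i)))
    congr 1
    funext i
    rw [hπ, hv2]
  rw [hJ] at hR1 hR2
  obtain ⟨e1, he1⟩ := hR1.code
  obtain ⟨e2, he2⟩ := hR2.code
  -- the generic sequence of tuples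
  let p : ℕ → TC δ (Fin F.card) st := fun m => tupR g X hX hst m
  have hp : ∀ m n, m ≤ n → TC.le (p n) (p m) := fun m n h => tupR_le g X hX hst m n h
  have htr : ∀ p q r : TC δ (Fin F.card) st, TC.le r q → TC.le q p → TC.le r p :=
    fun p q r => TC.le_trans p q r
  have hrf : ∀ p : TC δ (Fin F.card) st, TC.le p p := TC.le_refl
  have hgen : ∀ (e : OCode) (k : ℕ) (a : List ℕ), (∃ m, High TC.le (PrT e π k) (p m) a) ↔
      ∃ b : ℕ → List ℕ, b 0 = a ∧ ∀ n, ∃ m, PrT e π k (p m) (b (n+1)) (b n) := by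
    intro e k a
    refine generic_path (η := η ⟨F.card, st, e, π, k⟩) htr
      (fun p q b a hq h => PrT_mono e π k p q b a hq h) p hp ?_ ?_ ?_ a
    · intro a
      refine tup_meets g X hX hst hinj ⟨?_, ?_⟩ (hg.e1 _ st e π k a)
      · exact fun p => E1_dense hrf (fun p a => hη2 _ st e π k p a) a p
      · exact fun p q => E1_open htr a p q
    · intro a
      refine tup_meets g X hX hst hinj ⟨?_, ?_⟩ (hg.e2 _ st e π k a)
      · exact fun p => E2_dense hrf htr (hη1 _) (fun p a => hη2 _ st e π k p a) a p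
      · exact fun p q => E2_open htr (fun p q b a hq h => PrT_mono e π k p q b a hq h) a p q
    · intro β hβ a
      refine tup_meets g X hX hst hinj ⟨?_, ?_⟩ (fun L => hg.e3 _ st e π k a L β hβ)
      · exact fun p => E3_dense hrf β a p
      · exact fun p q => E3_open htr β a p q
  have key1 : ∀ n, (∃ m, High TC.le (PrT e1 π n) (p m) []) ↔ γ n = true := by
    intro n
    rw [hgen e1 n [], ← path_iff e1 π n g X hX hst R1 he1, ← h1 n]
    rfl
  have key2 : ∀ n, (∃ m, High TC.le (PrT e2 π n) (p m) []) ↔ γ n = false := by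
    intro n
    rw [hgen e2 n [], ← path_iff e2 π n g X hX hst R2 he2, ← h2 n]
    simp
  refine gamma_avoid (Pr1 := fun k => PrT e1 π k) (Pr2 := fun k => PrT e2 π k) (a := [])
    (γ := γ) htr p hp ?_ (fun n hn => (key1 n).2 hn) (fun n m hm => (key1 n).1 ⟨m, hm⟩)
    (fun n hn => (key2 n).2 hn) (fun n m hm => (key2 n).1 ⟨m, hm⟩)
  refine tup_meets g X hX hst hinj ⟨?_, ?_⟩ (hγ2 _ st e1 e2 π)
  · exact hγ1 _ st e1 e2 π
  · exact fun p q => Eγ_open htr _ _ [] γ p q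

end Pool.Agent.Y403.VW
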